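import Mathlib
import Pool.Agent.X300.RB.TB

/-!
# `TB(A × Z)` and `TB(Z)` for almost all abelian varieties `A`

Let `A` be a product of powers of abelian varieties of dimensions `g i` over the field with `q`
elements (over an extension with `Q = q ^ s` elements and up to isogeny), given by their Weil
polynomials `f i`, and let `Z` be a separated scheme of finite type over the field with `Q` elements,
singular or not, proper or not.

The theorem says that for almost all families `f` of Weil polynomials (all but a proportion
`O (q ^ (-1 / 6) log q)`, for all isogeny classes as well as for the ordinary ones) Jannsen's
statement `TB(A × Z)` holds if and only if `TB(Z)` holds, for all `Z` whose Frobenius eigenvalues lie,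
up to powers, in a group generated by the nonzero elements of the number field `E` and `r < g i`
further numbers. More precisely, for each bidegree: the regulator of `A × Z` is injective (is onto the
Frobenius invariants; the Jordan blocks of the eigenvalue one of Frobenius have size at most `n`) in
the bidegree `(i, j)` if and only if this is true for `Z` in the bidegrees `(i - 2 k, j - k)`,
`0 ≤ k ≤ dim A`. This follows from a Kunneth formula: both the motivic homology of `A × Z` and the
generalized Frobenius invariants in its `ℓ`-adic homology are direct sums of copies of those of `Z`,
by the products with products of divisor classes on `A`.

The theories are written as in the case of cohomology (`RelData`): for the homology of an arbitrary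
`Z` one takes for the group of `Z` in the bidegree `(i, j)` the homology group `H_{-i}(Z, -j)` and for
the group of `A × Z` the homology group `H_{2 dim A - i}(A × Z, dim A - j)`. Frobenius on `A` operates
by pull-back, Frobenius on `Z` by the inverse of the push-forward; on cycles, and on the Galois
invariants in `ℓ`-adic homology, their product is then the multiplication by `Q ^ j`.
The motivic theory is tensored with `ℚ_ℓ`. The condition on Frobenius (`HasTotalRank`) is known if the
motive with compact supports of `Z` is built from motives of curves and abelian varieties; for such
`Z`, as products of curves, `TB(Z)` is not known in general.
-/

set_option autoImplicit false

namespace Pool.Agent.Results.MP_2ce3e7_ag.AlmostAllFactorsTB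

open Pool.Agent.Y156.L Pool.Agent.X300.RB

/-- Let `r < g i` for all `i` and let `E` be a number field. Almost all families of abelian
varieties of dimensions `g i` over the field with `q` elements, given by their Weil polynomials
`f i`, have the property `TBForRankOver E q r f`: for products `A` of powers of these abelian
varieties and all `Z` of rank at most `r` over `E`, the Tate-Beilinson statement holds for `A × Z` if
and only if it holds for `Z`, and the same is true bidegree by bidegree for injectivity and
surjectivity of the regulator and for the Jordan blocks. -/
theorem result {I : Type} [Fintype I] (g : I → ℕ) (r : ℕ) (hr : ∀ i, r < g i)
    (E : IntermediateField ℚ ℂ) [FiniteDimensional ℚ E] :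
    AlmostAll g fun q f => TBForRankOver E q r f :=
  count_tb g r hr E

end Pool.Agent.Results.MP_2ce3e7_ag.AlmostAllFactorsTB
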