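import Pool.Agent.X312.FK.Frob

/-!
# Gap laws for the generalized Tate-Beilinson conjecture `TB` for the schemes `Y × X ^ n`

Let `k` be a finite field and `X` a smooth projective geometrically irreducible variety over `k`,
such that the numerically trivial self-correspondences of its powers are nilpotent, with
`ℚ_ℓ`-coefficients (by Kimura this holds if the Chow motive of `X` is finite-dimensional, for
example for products of curves and for abelian varieties), and such that `ℓ`-adic homological and
numerical equivalence agree on its powers (known for abelian varieties and products of curves and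
suitable `ℓ` by Clozel). Let `Y` be **any separated scheme of finite type** over `k`, and fix an
integer `a`. Consider the regulators

`r : H_(2 j + a)^M(Y × Z, ℚ(j)) ⊗ ℚ_ℓ → H_(2 j + a)(Y × Z, ℚ_ℓ(j))`, `j ∈ ℤ`,

with values in the homology over the algebraic closure of `k`, on which the Frobenius `F` acts.
Let `ρ(Z)` be the rank of the cycles of all codimensions on `Z` modulo numerical equivalence, `b`
the sum of the Betti numbers of `X`, and `ε_n = 4 (m + 3) b ^ (m + 5) log (n + 1) / n`. For all `m
≥ 1`:

(1) **the regulators are injective for** `Y × X ^ m` **and all** `j`, **or for all** `n ≥ 1` **the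
kernels of the regulators for** `Y × X ^ n` **have together dimension at least** `(1 - ε_n) ρ(X ^
n)`;

(2) **the regulators for** `Y × X ^ m` **and all** `j` **are onto the invariants of** `F`, **or
for all** `n ≥ 1` **the spaces of the invariants of** `F` **on the groups** `H_(2 j + a)(Y × X ^
n, ℚ_ℓ(j))` **modulo the images of the regulators have together dimension at least** `(1 - ε_n)
ρ(X ^ n)`;

(3) **the eigenvalue one of** `F` **on the groups** `H_(2 j + a)(Y × X ^ m, ℚ_ℓ(j))` **is
semisimple, or for all** `n ≥ 1` **the spaces** `Ker (F - 1) ∩ Im (F - 1)` **for** `Y × X ^ n`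
**have together dimension at least** `(1 - ε_n) ρ(X ^ n)`.

So `TB` holds for all the schemes `Y × X ^ m` if and only if for each `a` and each `m` each of the
three numbers is smaller than `(1 - ε_n) ρ(X ^ n)` for one `n`.

The proof. Modulo numerical equivalence the self-correspondences of `P = X ^ m` form a
finite-dimensional algebra, and the numerically trivial ones are nilpotent, so that idempotents
can be lifted. Let `T` be an additive functor, for example the kernel or the cokernel of `c`,
which does not vanish on `P`. One takes an idempotent correspondence `g` on `P` of minimal rank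
with `g T(P) ≠ 0` and an element `z ≠ 0` of `g T(P)`. The correspondences `x` with `x z = 0` have
a nilpotent compression `g x g`, so the trace of `g x` vanishes, and so `dim T(Z)` is at least the
rank of the trace form `(u, v) ↦ tr (g v u)` on the correspondences between `P` and `Z`; for `Z =
X ^ n` this rank is compared with `ρ(X ^ n)` by the log-convexity of the sequence of the ranks of
the intersection forms and by the symmetric group.
-/

set_option autoImplicit false

open CategoryTheory AlgebraicGeometry

universe u v w

namespace Pool.Agent.Results.MP_2ce3e7_ag.FunctorGapLaw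

open Pool.Agent.H914 VarClass Obj WeilCohomology
open Pool.Agent.X312.FK (ChowData ChowModule IsRegulator IndepMod gapBound)
open Pool.Agent.Y133.Half (pw cycRank)

variable {k : Type u} [Field k] {𝒱 : VarClass k} {ops : CycleOps 𝒱}
  {W : WeilCohomology.{u, v} ops}

/-- The sum of the Betti numbers of `X`. -/
noncomputable def totalBetti (W : WeilCohomology.{u, v} ops) (X : 𝒱.Obj) : ℕ :=
  Module.finrank W.K (W.H X)

/-- **The gap laws for the conjecture of Tate, Beilinson and Jannsen.** Here `C` is the category of Chow
correspondences over `k` with coefficients in `ℚ_ℓ`, `c` is the sum over `j` of the regulators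
`H_(2 j + a)^M(Y × Z, ℚ(j)) ⊗ ℚ_ℓ → H_(2 j + a)(Y × Z, ℚ_ℓ(j))` (and may be any natural transformation
between functors), `f` is the Frobenius, and `pw X m` is the product of `m + 1` copies of `X`. -/
theorem result (C : ChowData W) (hC : C.IsChow) (S T : ChowModule C) (hS : S.IsFunctor)
    (hT : T.IsFunctor) (c : ∀ Z : 𝒱.Obj, S.M Z → T.M Z) (hc : IsRegulator S T c)
    (f : ∀ Z : 𝒱.Obj, T.M Z → T.M Z) (hf : T.IsFrobenius f) (X : 𝒱.Obj)
    (hX : ∀ n : ℕ, C.NumNil (pw X n)) (hD : ∀ n : ℕ, HomEqNum W (pw X n)) (m : ℕ) :
    -- injectivity
    ((∀ x : S.M (pw X m), c _ x = 0 → x = 0) ∨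
    ∀ n : ℕ, IndepMod {x : S.M (pw X n) | c _ x = 0} (⊥ : Submodule W.K (S.M (pw X n)))
      (gapBound (totalBetti W X) (cycRank ops (pw X n)) m n)) ∧
    -- surjectivity onto the invariants
    ((∀ y : T.M (pw X m), f _ y = y → ∃ x, c _ x = y) ∨
    ∀ n : ℕ, IndepMod {y : T.M (pw X n) | f _ y = y}
      (Submodule.span W.K (Set.range (c (pw X n))))
      (gapBound (totalBetti W X) (cycRank ops (pw X n)) m n)) ∧
    -- semisimplicity of the eigenvalue one
    ((∀ y : T.M (pw X m), f _ (f _ y - y) = f _ y - y → f _ y = y) ∨
    ∀ n : ℕ, IndepMod {y : T.M (pw X n) | f _ y = y ∧ ∃ z, f _ z - z = y}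
      (⊥ : Submodule W.K (T.M (pw X n)))
      (gapBound (totalBetti W X) (cycRank ops (pw X n)) m n)) :=
  Pool.Agent.X312.FK.tb_chow hf hC hS hT hc X hX hD m

end Pool.Agent.Results.MP_2ce3e7_ag.FunctorGapLaw
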